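import Mathlib
import Pool.Agent.TH278.Defs3
import Pool.Agent.TH554.J639
import Pool.Agent.TH429.J632
import Pool.Agent.Helper390.CovarioA
set_option autoImplicit false

/-! Job 712 (for MP_c7bdf0_an): one variable mixed norm bounds. -/

namespace Pool.Agent.TH278

open MeasureTheory Set Complex
open scoped ENNReal RealInnerProductSpace FourierTransform
open Pool.Agent.H438R2.RZ (e Good ft Pl Bump TR)
open Pool.Agent.H789R2.FR (E)

namespace J712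

open Pool.Agent.TH554.J639 (e_norm e_cont e_add)

/-! ### Minkowski's inequality -/

theorem cs {Y : Type*} [MeasurableSpace Y] {μ : Measure Y} {u v : Y → ℝ≥0∞}
    (hu : Measurable u) (hv : Measurable v) :
    ∫⁻ y, u y * v y ∂μ ≤ (∫⁻ y, u y ^ 2 ∂μ) ^ (1 / 2 : ℝ) * (∫⁻ y, v y ^ 2 ∂μ) ^ (1 / 2 : ℝ) := by
  have h := ENNReal.lintegral_mul_le_Lp_mul_Lq μ Real.HolderConjugate.two_two
    hu.aemeasurable hv.aemeasurable
  simpa using h

theorem sqrt_sq (x : ℝ≥0∞) : (x ^ 2) ^ (1 / 2 : ℝ) = x := by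
  rw [← ENNReal.rpow_natCast, ← ENNReal.rpow_mul]
  norm_num

theorem sq_sqrt (x : ℝ≥0∞) : (x ^ (1 / 2 : ℝ)) ^ 2 = x := by
  rw [← ENNReal.rpow_natCast, ← ENNReal.rpow_mul]
  norm_num

theorem minkowski {T Y : Type*} [MeasurableSpace T] [MeasurableSpace Y] {ν : Measure T}
    {μ : Measure Y} [SFinite ν] [SFinite μ] {h : T → Y → ℝ≥0∞}
    (hm : Measurable (Function.uncurry h)) :
    ∫⁻ y, (∫⁻ t, h t y ∂ν) ^ 2 ∂μ ≤ (∫⁻ t, (∫⁻ y, h t y ^ 2 ∂μ) ^ (1 / 2 : ℝ) ∂ν) ^ 2 := by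
  have hmt : ∀ t, Measurable (h t) := fun t => hm.comp (measurable_const.prodMk measurable_id)
  have hmy : ∀ y, Measurable (fun t => h t y) :=
    fun y => hm.comp (measurable_id.prodMk measurable_const)
  have hN : Measurable (fun t => (∫⁻ y, h t y ^ 2 ∂μ) ^ (1 / 2 : ℝ)) := by
    have : Measurable (Function.uncurry fun t y => h t y ^ 2) := hm.pow_const 2
    exact this.lintegral_prod_right.pow_const _
  have hI : Measurable (fun y => ∫⁻ t, h t y ∂ν) := by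
    have : Measurable (Function.uncurry fun y t => h t y) := hm.comp measurable_swap
    exact this.lintegral_prod_right
  calc ∫⁻ y, (∫⁻ t, h t y ∂ν) ^ 2 ∂μ
      = ∫⁻ y, ∫⁻ t, (∫⁻ t', h t' y ∂ν) * h t y ∂ν ∂μ := by
        refine lintegral_congr fun y => ?_
        rw [lintegral_const_mul _ (hmy y), sq]
    _ = ∫⁻ t, ∫⁻ y, (∫⁻ t', h t' y ∂ν) * h t y ∂μ ∂ν := by
        rw [lintegral_lintegral_swap]
        refine Measurable.aemeasurable ?_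
        exact (hI.comp measurable_fst).mul (hm.comp measurable_swap)
    _ = ∫⁻ t, ∫⁻ t', ∫⁻ y, h t' y * h t y ∂μ ∂ν ∂ν := by
        refine lintegral_congr fun t => ?_
        rw [lintegral_lintegral_swap]
        · refine lintegral_congr fun y => ?_
          rw [lintegral_mul_const _ (hmy y)]
        · refine Measurable.aemeasurable ?_
          exact hm.mul ((hmt t).comp measurable_snd)
    _ ≤ ∫⁻ t, ∫⁻ t', (∫⁻ y, h t' y ^ 2 ∂μ) ^ (1 / 2 : ℝ) * (∫⁻ y, h t y ^ 2 ∂μ) ^ (1 / 2 : ℝ) ∂ν ∂ν := by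
        refine lintegral_mono fun t => lintegral_mono fun t' => ?_
        exact cs (hmt t') (hmt t)
    _ = (∫⁻ t, (∫⁻ y, h t y ^ 2 ∂μ) ^ (1 / 2 : ℝ) ∂ν) ^ 2 := by
        have : ∀ t, ∫⁻ t', (∫⁻ y, h t' y ^ 2 ∂μ) ^ (1 / 2 : ℝ) * (∫⁻ y, h t y ^ 2 ∂μ) ^ (1 / 2 : ℝ) ∂ν =
            (∫⁻ t', (∫⁻ y, h t' y ^ 2 ∂μ) ^ (1 / 2 : ℝ) ∂ν) * (∫⁻ y, h t y ^ 2 ∂μ) ^ (1 / 2 : ℝ) := by
          intro t
          rw [lintegral_mul_const _ hN]
        simp_rw [this]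
        rw [lintegral_const_mul _ hN, sq]

theorem minkowski' {T Y : Type*} [MeasurableSpace T] [MeasurableSpace Y] {ν : Measure T}
    {μ : Measure Y} [SFinite ν] [SFinite μ] {h : T → Y → ℝ≥0∞}
    (hm : Measurable (Function.uncurry h)) :
    (∫⁻ y, (∫⁻ t, h t y ∂ν) ^ 2 ∂μ) ^ (1 / 2 : ℝ) ≤ ∫⁻ t, (∫⁻ y, h t y ^ 2 ∂μ) ^ (1 / 2 : ℝ) ∂ν := by
  rw [← sqrt_sq (∫⁻ t, (∫⁻ y, h t y ^ 2 ∂μ) ^ (1 / 2 : ℝ) ∂ν)]
  exact ENNReal.rpow_le_rpow (minkowski hm) (by norm_num)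

/-! ### Plancherel -/

theorem lint_sq {X : Type*} [MeasurableSpace X] {μ : Measure X} {h : X → ℂ} (hh : MemLp h 2 μ) :
    ∫⁻ x, ‖h x‖ₑ ^ 2 ∂μ = ENNReal.ofReal (∫ x, ‖h x‖ ^ 2 ∂μ) := by
  have h1 : Integrable (fun x => ‖h x‖ ^ 2) μ :=
    (memLp_two_iff_integrable_sq_norm hh.1).1 hh
  rw [ofReal_integral_eq_lintegral_ofReal h1 (Filter.Eventually.of_forall fun x => by positivity)]
  refine lintegral_congr fun x => ?_
  rw [ENNReal.ofReal_pow (norm_nonneg _), ofReal_norm]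

/-- bounded measurable functions with bounded support are integrable -/
theorem integrable_of {m : ℕ} {F : Type*} [NormedAddCommGroup F] {g : E m → F}
    (hm : AEStronglyMeasurable g volume) (M B : ℝ) (hM : ∀ z, ‖g z‖ ≤ M)
    (hB : ∀ z, g z ≠ 0 → ‖z‖ ≤ B) : Integrable g := by
  have h1 : IntegrableOn g (Metric.closedBall 0 B) volume := by
    refine Measure.integrableOn_of_bounded ?_ hm (Filter.Eventually.of_forall hM)
    exact measure_closedBall_lt_top.ne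
  refine h1.integrable_of_forall_notMem_eq_zero ?_
  intro z hz
  by_contra hne
  apply hz
  simpa using hB z hne

theorem good_integrable {m : ℕ} {U : E m → ℂ} (hU : GoodN U) : Integrable U := by
  obtain ⟨hm, ⟨M, hM⟩, B, hB⟩ := hU
  exact integrable_of hm.aestronglyMeasurable M B hM hB

theorem good_memLp {m : ℕ} {U : E m → ℂ} (hU : GoodN U) : MemLp U 2 := by
  obtain ⟨hm, ⟨M, hM⟩, B, hB⟩ := hU
  rw [memLp_two_iff_integrable_sq_norm hm.aestronglyMeasurable]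
  refine integrable_of (hm.norm.pow_const 2).aestronglyMeasurable (M ^ 2) B ?_ ?_
  · intro z
    rw [Real.norm_of_nonneg (by positivity)]
    exact pow_le_pow_left₀ (norm_nonneg _) (hM z) 2
  · intro z hz
    refine hB z fun h => hz ?_
    simp [h]

theorem hat_eq {m : ℕ} (G : E m → ℂ) (ζ : E m) :
    ∫ y' : E m, e (-(⟪y', ζ⟫ : ℝ)) * G y' = 𝓕 G ζ := by
  rw [Real.fourier_eq']
  refine integral_congr_ae (Filter.Eventually.of_forall fun v => ?_)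
  simp only [smul_eq_mul]
  congr 1
  unfold e
  congr 1
  push_cast
  ring

theorem inv_eq {m : ℕ} (U : E m → ℂ) (y : E m) :
    ∫ ζ : E m, U ζ * e (⟪y, ζ⟫ : ℝ) = 𝓕 U (-y) := by
  rw [Real.fourier_eq']
  refine integral_congr_ae (Filter.Eventually.of_forall fun v => ?_)
  simp only [smul_eq_mul]
  rw [mul_comm]
  congr 1
  unfold e
  congr 1
  rw [inner_neg_right, real_inner_comm]
  push_cast
  ring

theorem planch {m : ℕ} {U : E m → ℂ} (hU : GoodN U) :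
    ∫⁻ z, ‖𝓕 U z‖ₑ ^ 2 = ∫⁻ z, ‖U z‖ₑ ^ 2 := by
  obtain ⟨hF, hP⟩ := Pool.Agent.Helper390.Covario.plancherel (good_integrable hU) (good_memLp hU)
  rw [lint_sq hF, hP, ← lint_sq (good_memLp hU)]

/-! ### kernels -/

theorem kern_meas {ψ : ℝ → ℝ} (hψ : Continuous ψ) (L : ℝ) :
    Measurable (fun p : ℝ × ℝ => kern ψ L p.1 p.2) := by
  have : StronglyMeasurable (Function.uncurry (fun (p : ℝ × ℝ) (ξ : ℝ) =>
      ((ψ (L ^ 2 * (p.1 - ξ ^ 2)) : ℝ) : ℂ) * e (p.2 * ξ))) := by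
    refine Continuous.stronglyMeasurable ?_
    refine Continuous.mul ?_ ?_
    · exact continuous_ofReal.comp (hψ.comp (by fun_prop))
    · exact e_cont.comp (by fun_prop)
  exact this.integral_prod_right.measurable

theorem psi_zero {ψ : ℝ → ℝ} (hψ : Bump ψ) {v : ℝ} (hv : v ≤ 0) : ψ v = 0 := by
  by_contra h
  have := (hψ.2 v h).1
  linarith

theorem kern_supp {ψ : ℝ → ℝ} (hψ : Bump ψ) (L τ s : ℝ) (hτ : τ ≤ 0) : kern ψ L τ s = 0 := by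
  unfold kern
  rw [← integral_zero ℝ ℂ]
  refine integral_congr_ae (Filter.Eventually.of_forall fun ξ => ?_)
  simp only
  rw [psi_zero hψ, ofReal_zero, zero_mul]
  have h1 : 0 ≤ L ^ 2 := sq_nonneg _
  have h2 : τ - ξ ^ 2 ≤ 0 := by nlinarith [sq_nonneg ξ]
  exact mul_nonpos_of_nonneg_of_nonpos h1 h2

theorem kern_bdd {ψ : ℝ → ℝ} (hψ : Bump ψ) : ∃ K : ℝ, 0 ≤ K ∧ ∀ L τ s : ℝ, τ ≤ 1 →
    ‖kern ψ L τ s‖ ≤ K := by
  obtain ⟨M, hM0, hM⟩ := J632.exists_bound hψ.1.continuous hψ.2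
  refine ⟨M * 2, by positivity, fun L τ s hτ => ?_⟩
  have h1 : kern ψ L τ s = ∫ ξ in Icc (-1 : ℝ) 1, ((ψ (L ^ 2 * (τ - ξ ^ 2)) : ℝ) : ℂ) * e (s * ξ) := by
    unfold kern
    symm
    apply setIntegral_eq_integral_of_forall_compl_eq_zero
    intro ξ hξ
    rw [psi_zero hψ, ofReal_zero, zero_mul]
    have h1 : 0 ≤ L ^ 2 := sq_nonneg _
    have h2 : τ - ξ ^ 2 ≤ 0 := by
      have h3 : 1 < |ξ| := by
        by_contra h4
        push Not at h4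
        exact hξ (abs_le.1 h4)
      have h5 : 1 < ξ ^ 2 := by
        rw [← sq_abs]
        nlinarith
      linarith
    exact mul_nonpos_of_nonneg_of_nonpos h1 h2
  rw [h1]
  have h2 := norm_setIntegral_le_of_norm_le_const (μ := (volume : Measure ℝ)) (s := Icc (-1 : ℝ) 1)
    (f := fun ξ => ((ψ (L ^ 2 * (τ - ξ ^ 2)) : ℝ) : ℂ) * e (s * ξ)) (C := M) (by simp) (fun ξ _ => by
      rw [norm_mul, e_norm, mul_one, Complex.norm_real]
      exact hM _)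
  refine h2.trans (le_of_eq ?_)
  rw [Measure.real, Real.volume_Icc, ENNReal.toReal_ofReal (by norm_num)]
  norm_num

/-- the multiplier `ζ ↦ kern ψ L (1 - |ζ|^2) r` -/
theorem kz_meas {m : ℕ} {ψ : ℝ → ℝ} (hψ : Continuous ψ) (L : ℝ) :
    Measurable (fun p : E m × ℝ => kern ψ L (1 - ‖p.1‖ ^ 2) p.2) := by
  have h1 : Measurable (fun p : E m × ℝ => ((1 - ‖p.1‖ ^ 2, p.2) : ℝ × ℝ)) := by fun_prop
  exact (kern_meas hψ L).comp h1

theorem kz_supp {m : ℕ} {ψ : ℝ → ℝ} (hψ : Bump ψ) (L r : ℝ) (ζ : E m)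
    (h : kern ψ L (1 - ‖ζ‖ ^ 2) r ≠ 0) : ‖ζ‖ ≤ 1 := by
  by_contra h1
  push Not at h1
  apply h
  apply kern_supp hψ
  nlinarith

theorem four_bdd {m : ℕ} (G : E m → ℂ) (ζ : E m) : ‖𝓕 G ζ‖ ≤ ∫ y, ‖G y‖ := by
  rw [← hat_eq]
  refine (norm_integral_le_integral_norm _).trans (le_of_eq ?_)
  refine integral_congr_ae (Filter.Eventually.of_forall fun y => ?_)
  simp [e_norm]

theorem four_cont {m : ℕ} {G : E m → ℂ} (hG : Integrable G) : Continuous (𝓕 G) :=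
  VectorFourier.fourierIntegral_continuous Real.continuous_fourierChar continuous_inner hG

theorem kF_good {m : ℕ} {ψ : ℝ → ℝ} (hψ : Bump ψ) (L r : ℝ) {G : E m → ℂ} (hG : GoodN G) :
    GoodN (fun ζ : E m => kern ψ L (1 - ‖ζ‖ ^ 2) r * 𝓕 G ζ) := by
  obtain ⟨K, hK0, hK⟩ := kern_bdd hψ
  refine ⟨?_, ⟨K * ∫ y, ‖G y‖, ?_⟩, 1, ?_⟩
  · have h0 : Measurable (fun ζ : E m => ((1 - ‖ζ‖ ^ 2, r) : ℝ × ℝ)) := by fun_prop
    have h1 : Measurable (fun ζ : E m => kern ψ L (1 - ‖ζ‖ ^ 2) r) :=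
      (kern_meas hψ.1.continuous L).comp h0
    have h2 : Measurable (fun ζ : E m => 𝓕 G ζ) := (four_cont (good_integrable hG)).measurable
    exact h1.mul h2
  · intro ζ
    rw [norm_mul]
    refine mul_le_mul (hK _ _ _ ?_) (four_bdd _ _) (norm_nonneg _) hK0
    nlinarith [sq_nonneg ‖ζ‖]
  · intro ζ h
    exact kz_supp hψ L r ζ (left_ne_zero_of_mul h)

/-- `L^2` bound for `Qop` -/
theorem Q_l2 {m : ℕ} {ψ : ℝ → ℝ} (hψ : Bump ψ) {L r D : ℝ}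
    (hk : ∀ τ : ℝ, τ ≤ 1 → ‖kern ψ L τ r‖ ≤ D) {G : E m → ℂ} (hG : GoodN G) :
    (∫⁻ y, ‖Qop ψ L r G y‖ₑ ^ 2) ^ (1 / 2 : ℝ) ≤
      ENNReal.ofReal D * (∫⁻ y, ‖G y‖ₑ ^ 2) ^ (1 / 2 : ℝ) := by
  have h1 : ∀ y, Qop ψ L r G y = 𝓕 (fun ζ : E m => kern ψ L (1 - ‖ζ‖ ^ 2) r * 𝓕 G ζ) (-y) := by
    intro y
    rw [← inv_eq]
    unfold Qop
    simp_rw [hat_eq]
  have h2 : ∫⁻ y, ‖Qop ψ L r G y‖ₑ ^ 2 =
      ∫⁻ y, ‖𝓕 (fun ζ : E m => kern ψ L (1 - ‖ζ‖ ^ 2) r * 𝓕 G ζ) y‖ₑ ^ 2 := by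
    simp_rw [h1]
    exact (Measure.measurePreserving_neg (volume : Measure (E m))).lintegral_comp_emb
      (MeasurableEquiv.neg (E m)).measurableEmbedding
      (fun y => ‖𝓕 (fun ζ : E m => kern ψ L (1 - ‖ζ‖ ^ 2) r * 𝓕 G ζ) y‖ₑ ^ 2)
  have h3 : ∫⁻ y, ‖Qop ψ L r G y‖ₑ ^ 2 ≤ ENNReal.ofReal D ^ 2 * ∫⁻ y, ‖G y‖ₑ ^ 2 := by
    rw [h2, planch (kF_good hψ L r hG), ← planch hG, ← lintegral_const_mul']
    · refine lintegral_mono fun ζ => ?_
      rw [enorm_mul, mul_pow]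
      gcongr
      rw [← ofReal_norm]
      apply ENNReal.ofReal_le_ofReal
      apply hk
      nlinarith [sq_nonneg ‖ζ‖]
    · exact ENNReal.pow_ne_top ENNReal.ofReal_ne_top
  calc (∫⁻ y, ‖Qop ψ L r G y‖ₑ ^ 2) ^ (1 / 2 : ℝ)
      ≤ (ENNReal.ofReal D ^ 2 * ∫⁻ y, ‖G y‖ₑ ^ 2) ^ (1 / 2 : ℝ) :=
        ENNReal.rpow_le_rpow h3 (by norm_num)
    _ = _ := by
        rw [ENNReal.mul_rpow_of_nonneg _ _ (by norm_num), sqrt_sq]

/-! ### slices -/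

theorem ins_norm {m : ℕ} (i : Fin (m + 1)) (s : ℝ) (y : E m) :
    ‖ins i s y‖ ^ 2 = s ^ 2 + ‖y‖ ^ 2 := by
  obtain ⟨ι, h1, -, -, h4⟩ := Pool.Agent.TH554.J639.ins_equiv m i
  have := h4 (s, y)
  rw [h1] at this
  exact this

theorem ins_meas {m : ℕ} (i : Fin (m + 1)) : Measurable (fun p : ℝ × E m => ins i p.1 p.2) := by
  obtain ⟨ι, h1, -, -, -⟩ := Pool.Agent.TH554.J639.ins_equiv m i
  have : (fun p : ℝ × E m => ins i p.1 p.2) = ι := by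
    funext p
    rw [h1]
  rw [this]
  exact ι.measurable

theorem slice_bd {m : ℕ} {i : Fin (m + 1)} {B s : ℝ} {y : E m} (h : ‖ins i s y‖ ≤ B) :
    |s| ≤ B ∧ ‖y‖ ≤ B := by
  have h0 : 0 ≤ B := (norm_nonneg _).trans h
  have h1 := ins_norm i s y
  have h2 : ‖ins i s y‖ ^ 2 ≤ B ^ 2 := pow_le_pow_left₀ (norm_nonneg _) h 2
  constructor
  · apply abs_le_of_sq_le_sq _ h0
    nlinarith [sq_nonneg ‖y‖]
  · have h3 : ‖y‖ ^ 2 ≤ B ^ 2 := by nlinarith [sq_nonneg s]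
    exact le_of_sq_le_sq h3 h0

theorem slice_good {m : ℕ} (i : Fin (m + 1)) {f : E (m + 1) → ℂ} (hf : GoodN f) (t : ℝ) :
    GoodN (fun y : E m => f (ins i t y)) := by
  obtain ⟨hm, ⟨M, hM⟩, B, hB⟩ := hf
  refine ⟨?_, ⟨M, fun y => hM _⟩, B, fun y hy => (slice_bd (hB _ hy)).2⟩
  exact hm.comp ((ins_meas i).comp (measurable_const.prodMk measurable_id))

/-- Fourier transforms of the slices -/
noncomputable def Fs {m : ℕ} (i : Fin (m + 1)) (f : E (m + 1) → ℂ) (t : ℝ) (ζ : E m) : ℂ :=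
  ∫ y' : E m, e (-(⟪y', ζ⟫ : ℝ)) * f (ins i t y')

theorem Fs_meas {m : ℕ} (i : Fin (m + 1)) {f : E (m + 1) → ℂ} (hf : Measurable f) :
    Measurable (fun p : E m × ℝ => Fs i f p.2 p.1) := by
  have h1 : Measurable (fun q : (E m × ℝ) × E m => e (-(⟪q.2, q.1.1⟫ : ℝ))) :=
    e_cont.measurable.comp (by fun_prop)
  have h2 : Measurable (fun q : (E m × ℝ) × E m => f (ins i q.1.2 q.2)) :=
    hf.comp ((ins_meas i).comp (measurable_fst.snd.prodMk measurable_snd))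
  have h3 : StronglyMeasurable (Function.uncurry (fun (p : E m × ℝ) (y' : E m) =>
      e (-(⟪y', p.1⟫ : ℝ)) * f (ins i p.2 y'))) := (h1.mul h2).stronglyMeasurable
  exact h3.integral_prod_right.measurable

theorem Fs_bd {m : ℕ} (i : Fin (m + 1)) {f : E (m + 1) → ℂ} (hf : GoodN f) :
    ∃ A B : ℝ, 0 ≤ A ∧ ∀ t ζ, ‖Fs i f t ζ‖ ≤ A ∧ (Fs i f t ζ ≠ 0 → |t| ≤ B) := by
  obtain ⟨hm, ⟨M, hM⟩, B, hB⟩ := hf
  refine ⟨M * (volume : Measure (E m)).real (Metric.closedBall 0 B), B,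
    mul_nonneg ((norm_nonneg _).trans (hM 0)) measureReal_nonneg, fun t ζ => ⟨?_, ?_⟩⟩
  · have h1 : Fs i f t ζ = ∫ y' in Metric.closedBall (0 : E m) B, e (-(⟪y', ζ⟫ : ℝ)) * f (ins i t y') := by
      unfold Fs
      symm
      apply setIntegral_eq_integral_of_forall_compl_eq_zero
      intro y' hy'
      by_contra h
      apply hy'
      have := (slice_bd (hB _ (right_ne_zero_of_mul h))).2
      simpa using this
    rw [h1]
    refine norm_setIntegral_le_of_norm_le_const measure_closedBall_lt_top fun y' _ => ?_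
    rw [norm_mul, e_norm, one_mul]
    exact hM _
  · intro h
    by_contra h1
    apply h
    unfold Fs
    rw [← integral_zero (E m) ℂ]
    refine integral_congr_ae (Filter.Eventually.of_forall fun y' => ?_)
    simp only
    have : f (ins i t y') = 0 := by
      by_contra h2
      exact h1 (slice_bd (hB _ h2)).1
    rw [this, mul_zero]

theorem integrable_prod_of {m : ℕ} {g : E m × ℝ → ℂ} (hm : Measurable g) (M B₁ B₂ : ℝ)
    (hM : ∀ z, ‖g z‖ ≤ M) (hB : ∀ z, g z ≠ 0 → ‖z.1‖ ≤ B₁ ∧ |z.2| ≤ B₂) :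
    Integrable g ((volume : Measure (E m)).prod (volume : Measure ℝ)) := by
  have h1 : IntegrableOn g (Metric.closedBall 0 B₁ ×ˢ Icc (-B₂) B₂)
      ((volume : Measure (E m)).prod (volume : Measure ℝ)) := by
    refine Measure.integrableOn_of_bounded ?_ hm.aestronglyMeasurable (Filter.Eventually.of_forall hM)
    rw [Measure.prod_prod, Real.volume_Icc]
    exact ENNReal.mul_ne_top measure_closedBall_lt_top.ne ENNReal.ofReal_ne_top
  refine h1.integrable_of_forall_notMem_eq_zero ?_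
  intro z hz
  by_contra hne
  apply hz
  obtain ⟨ha, hb⟩ := hB z hne
  refine ⟨by simpa using ha, ?_⟩
  rw [abs_le] at hb
  exact ⟨hb.1, hb.2⟩

theorem repr_inner {m : ℕ} {ψ : ℝ → ℝ} (hψ : Bump ψ) {L : ℝ} (i : Fin (m + 1))
    {f : E (m + 1) → ℂ} (hf : GoodN f) (s : ℝ) (ζ : E m) :
    ∫ ξ : ℝ, ((ML ψ L (ξ ^ 2 + ‖ζ‖ ^ 2) : ℝ) : ℂ) * (∫ t : ℝ, e (-(t * ξ)) * Fs i f t ζ) * e (s * ξ) =
      ∫ t : ℝ, kern ψ L (1 - ‖ζ‖ ^ 2) (s - t) * Fs i f t ζ := by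
  obtain ⟨A, B, hA, hF⟩ := Fs_bd i hf
  have hFm : Measurable (fun t => Fs i f t ζ) := by
    have h0 : Measurable (fun t : ℝ => ((ζ, t) : E m × ℝ)) := measurable_prodMk_left
    have h1 := (Fs_meas i hf.1).comp h0
    exact h1
  have hFi : Integrable (fun t => Fs i f t ζ) := by
    have h1 : IntegrableOn (fun t => Fs i f t ζ) (Icc (-B) B) volume := by
      refine Measure.integrableOn_of_bounded ?_ hFm.aestronglyMeasurable
        (Filter.Eventually.of_forall fun t => (hF t ζ).1)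
      rw [Real.volume_Icc]
      exact ENNReal.ofReal_ne_top
    refine h1.integrable_of_forall_notMem_eq_zero ?_
    intro t ht
    by_contra hne
    exact ht (abs_le.1 ((hF t ζ).2 hne))
  have hMc : Continuous (fun ξ : ℝ => ((ML ψ L (ξ ^ 2 + ‖ζ‖ ^ 2) : ℝ) : ℂ)) := by
    unfold ML
    exact continuous_ofReal.comp (hψ.1.continuous.comp (by fun_prop))
  have hMi : Integrable (fun ξ : ℝ => ((ML ψ L (ξ ^ 2 + ‖ζ‖ ^ 2) : ℝ) : ℂ)) := by
    refine hMc.integrable_of_hasCompactSupport (HasCompactSupport.intro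
      (isCompact_Icc (a := (-1 : ℝ)) (b := 1)) fun ξ hξ => ?_)
    have h3 : 1 < |ξ| := by
      by_contra h4
      push Not at h4
      exact hξ (abs_le.1 h4)
    have h5 : 1 < ξ ^ 2 := by
      rw [← sq_abs]
      nlinarith
    unfold ML
    rw [psi_zero hψ, ofReal_zero]
    have h6 : 1 - (ξ ^ 2 + ‖ζ‖ ^ 2) ≤ 0 := by nlinarith [sq_nonneg ‖ζ‖]
    exact mul_nonpos_of_nonneg_of_nonpos (sq_nonneg _) h6
  have hprod : Integrable (Function.uncurry fun (ξ t : ℝ) =>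
      e ((s - t) * ξ) * (((ML ψ L (ξ ^ 2 + ‖ζ‖ ^ 2) : ℝ) : ℂ) * Fs i f t ζ))
      ((volume : Measure ℝ).prod (volume : Measure ℝ)) := by
    have h1 := hMi.mul_prod hFi
    have h2 : Continuous (fun p : ℝ × ℝ => e ((s - p.2) * p.1)) := e_cont.comp (by fun_prop)
    exact h1.bdd_mul (c := 1) h2.aestronglyMeasurable
      (Filter.Eventually.of_forall fun p => (e_norm _).le)
  calc ∫ ξ : ℝ, ((ML ψ L (ξ ^ 2 + ‖ζ‖ ^ 2) : ℝ) : ℂ) * (∫ t : ℝ, e (-(t * ξ)) * Fs i f t ζ) * e (s * ξ)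
      = ∫ ξ : ℝ, ∫ t : ℝ, e ((s - t) * ξ) * (((ML ψ L (ξ ^ 2 + ‖ζ‖ ^ 2) : ℝ) : ℂ) * Fs i f t ζ) := by
        refine integral_congr_ae (Filter.Eventually.of_forall fun ξ => ?_)
        simp only
        rw [← integral_const_mul, ← integral_mul_const]
        refine integral_congr_ae (Filter.Eventually.of_forall fun t => ?_)
        simp only
        rw [show (s - t) * ξ = -(t * ξ) + s * ξ by ring, e_add]
        ring
    _ = ∫ t : ℝ, ∫ ξ : ℝ, e ((s - t) * ξ) * (((ML ψ L (ξ ^ 2 + ‖ζ‖ ^ 2) : ℝ) : ℂ) * Fs i f t ζ) :=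
        integral_integral_swap hprod
    _ = ∫ t : ℝ, kern ψ L (1 - ‖ζ‖ ^ 2) (s - t) * Fs i f t ζ := by
        refine integral_congr_ae (Filter.Eventually.of_forall fun t => ?_)
        simp only
        unfold kern
        rw [← integral_mul_const]
        refine integral_congr_ae (Filter.Eventually.of_forall fun ξ => ?_)
        simp only
        unfold ML
        rw [show 1 - (ξ ^ 2 + ‖ζ‖ ^ 2) = 1 - ‖ζ‖ ^ 2 - ξ ^ 2 by ring]
        ring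

theorem repr {m : ℕ} {ψ : ℝ → ℝ} (hψ : Bump ψ) {L : ℝ} (i : Fin (m + 1))
    {f : E (m + 1) → ℂ} (hf : GoodN f) (s : ℝ) (y : E m) :
    TR (m + 1) (ML ψ L) f (ins i s y) =
      ∫ t : ℝ, Qop ψ L (s - t) (fun y' => f (ins i t y')) y := by
  obtain ⟨ι, h1, h2, h3, h4⟩ := Pool.Agent.TH554.J639.ins_equiv m i
  have hMc : Continuous (ML ψ L) := by
    unfold ML
    exact hψ.1.continuous.comp (by fun_prop)
  have hM2 : ∀ u, 2 < u → ML ψ L u = 0 := by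
    intro u hu
    unfold ML
    apply psi_zero hψ
    exact mul_nonpos_of_nonneg_of_nonpos (sq_nonneg _) (by linarith)
  have h5 := Pool.Agent.TH554.J639.TR_split (ML ψ L) hMc hM2 ι h2
    (fun s t : ℝ => s * t) (fun y z : E m => (⟪y, z⟫ : ℝ)) (fun s => s ^ 2) (fun z => ‖z‖ ^ 2)
    h3 (by unfold Function.uncurry; fun_prop) (by unfold Function.uncurry; fun_prop) h4 f hf.1 (good_integrable hf) s y
  simp only [h1] at h5
  rw [h5]
  obtain ⟨A, B, hA, hF⟩ := Fs_bd i hf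
  obtain ⟨K, hK0, hK⟩ := kern_bdd hψ
  have hprod : Integrable (Function.uncurry fun (ζ : E m) (t : ℝ) =>
      kern ψ L (1 - ‖ζ‖ ^ 2) (s - t) * Fs i f t ζ * e (⟪y, ζ⟫ : ℝ))
      ((volume : Measure (E m)).prod (volume : Measure ℝ)) := by
    refine integrable_prod_of ?_ (K * A) 1 B ?_ ?_
    · have m1 : Measurable (fun p : E m × ℝ => ((1 - ‖p.1‖ ^ 2, s - p.2) : ℝ × ℝ)) := by fun_prop
      have m2 : Measurable (fun p : E m × ℝ => kern ψ L (1 - ‖p.1‖ ^ 2) (s - p.2)) :=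
        (kern_meas hψ.1.continuous L).comp m1
      have m3 : Measurable (fun p : E m × ℝ => e (⟪y, p.1⟫ : ℝ)) :=
        e_cont.measurable.comp (by fun_prop)
      exact (m2.mul (Fs_meas i hf.1)).mul m3
    · rintro ⟨ζ, t⟩
      simp only [Function.uncurry]
      rw [norm_mul, norm_mul, e_norm, mul_one]
      refine mul_le_mul (hK _ _ _ ?_) (hF t ζ).1 (norm_nonneg _) hK0
      nlinarith [sq_nonneg ‖ζ‖]
    · rintro ⟨ζ, t⟩ h
      simp only [Function.uncurry] at h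
      have h6 := left_ne_zero_of_mul h
      exact ⟨kz_supp hψ L _ ζ (left_ne_zero_of_mul h6), (hF t ζ).2 (right_ne_zero_of_mul h6)⟩
  calc ∫ ζ : E m, (∫ ξ : ℝ, ((ML ψ L (ξ ^ 2 + ‖ζ‖ ^ 2) : ℝ) : ℂ) *
        (∫ t : ℝ, e (-(t * ξ)) * (∫ y' : E m, e (-(⟪y', ζ⟫ : ℝ)) * f (ins i t y'))) * e (s * ξ)) *
          e (⟪y, ζ⟫ : ℝ)
      = ∫ ζ : E m, (∫ t : ℝ, kern ψ L (1 - ‖ζ‖ ^ 2) (s - t) * Fs i f t ζ) * e (⟪y, ζ⟫ : ℝ) := by
        refine integral_congr_ae (Filter.Eventually.of_forall fun ζ => ?_)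
        simp only
        rw [← repr_inner hψ i hf s ζ]
        rfl
    _ = ∫ ζ : E m, ∫ t : ℝ, kern ψ L (1 - ‖ζ‖ ^ 2) (s - t) * Fs i f t ζ * e (⟪y, ζ⟫ : ℝ) := by
        refine integral_congr_ae (Filter.Eventually.of_forall fun ζ => ?_)
        simp only
        rw [← integral_mul_const]
    _ = ∫ t : ℝ, ∫ ζ : E m, kern ψ L (1 - ‖ζ‖ ^ 2) (s - t) * Fs i f t ζ * e (⟪y, ζ⟫ : ℝ) :=
        integral_integral_swap hprod
    _ = _ := rfl

/-! ### the kernel integral -/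

theorem kk_meas (L : ℝ) : Measurable (kk L) := by
  unfold kk
  fun_prop

theorem kk_nonneg {L : ℝ} (hL : 1 ≤ L) (s : ℝ) : 0 ≤ kk L s := by
  unfold kk
  have : 0 < L := by linarith
  positivity

theorem I_le {C₁ C₂ L : ℝ} (h1 : 0 < C₁)
    (h2 : ∫⁻ s : ℝ, ENNReal.ofReal (kk L s) ≤ ENNReal.ofReal (C₂ * (1 + Real.log L))) :
    ∫⁻ s : ℝ, ENNReal.ofReal (C₁ * kk L s) ≤ ENNReal.ofReal (C₁ * C₂ * (1 + Real.log L)) := by
  have h3 : ∫⁻ s : ℝ, ENNReal.ofReal (C₁ * kk L s) =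
      ENNReal.ofReal C₁ * ∫⁻ s : ℝ, ENNReal.ofReal (kk L s) := by
    rw [← lintegral_const_mul' _ _ ENNReal.ofReal_ne_top]
    refine lintegral_congr fun s => ?_
    rw [ENNReal.ofReal_mul h1.le]
  rw [h3, mul_assoc, ENNReal.ofReal_mul h1.le]
  gcongr

theorem Qs_meas {m : ℕ} {ψ : ℝ → ℝ} (hψ : Bump ψ) (L : ℝ) (i : Fin (m + 1))
    {f : E (m + 1) → ℂ} (hf : GoodN f) (s : ℝ) :
    Measurable (fun p : ℝ × E m => Qop ψ L (s - p.1) (fun y' => f (ins i p.1 y')) p.2) := by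
  have m1 : Measurable (fun q : (ℝ × E m) × E m => ((1 - ‖q.2‖ ^ 2, s - q.1.1) : ℝ × ℝ)) := by
    fun_prop
  have m2 : Measurable (fun q : (ℝ × E m) × E m => kern ψ L (1 - ‖q.2‖ ^ 2) (s - q.1.1)) :=
    (kern_meas hψ.1.continuous L).comp m1
  have m3 : Measurable (fun q : (ℝ × E m) × E m => e (⟪q.1.2, q.2⟫ : ℝ)) :=
    e_cont.measurable.comp (by fun_prop)
  have m4 : Measurable (fun q : (ℝ × E m) × E m => ((q.2, q.1.1) : E m × ℝ)) := by fun_prop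
  have m5 : Measurable (fun q : (ℝ × E m) × E m => Fs i f q.1.1 q.2) := by
    have := (Fs_meas i hf.1).comp m4
    exact this
  have m6 : StronglyMeasurable (Function.uncurry (fun (p : ℝ × E m) (ζ : E m) =>
      kern ψ L (1 - ‖ζ‖ ^ 2) (s - p.1) * Fs i f p.1 ζ * e (⟪p.2, ζ⟫ : ℝ))) :=
    ((m2.mul m5).mul m3).stronglyMeasurable
  exact m6.integral_prod_right.measurable

theorem QG_meas {m : ℕ} {ψ : ℝ → ℝ} (hψ : Bump ψ) (L : ℝ) {G : E m → ℂ} (hG : GoodN G) :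
    Measurable (fun p : ℝ × E m => Qop ψ L p.1 G p.2) := by
  have m1 : Measurable (fun q : (ℝ × E m) × E m => ((1 - ‖q.2‖ ^ 2, q.1.1) : ℝ × ℝ)) := by
    fun_prop
  have m2 : Measurable (fun q : (ℝ × E m) × E m => kern ψ L (1 - ‖q.2‖ ^ 2) q.1.1) :=
    (kern_meas hψ.1.continuous L).comp m1
  have m3 : Measurable (fun q : (ℝ × E m) × E m => e (⟪q.1.2, q.2⟫ : ℝ)) :=
    e_cont.measurable.comp (by fun_prop)
  have m5 : Measurable (fun q : (ℝ × E m) × E m => 𝓕 G q.2) := by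
    have ms : Measurable (fun q : (ℝ × E m) × E m => q.2) := measurable_snd
    have := (four_cont (good_integrable hG)).measurable.comp ms
    exact this
  have m6 : StronglyMeasurable (Function.uncurry (fun (p : ℝ × E m) (ζ : E m) =>
      kern ψ L (1 - ‖ζ‖ ^ 2) p.1 * 𝓕 G ζ * e (⟪p.2, ζ⟫ : ℝ))) :=
    ((m2.mul m5).mul m3).stronglyMeasurable
  have h := (m6.integral_prod_right (ν := (volume : Measure (E m)))).measurable
  have h7 : (fun p : ℝ × E m => Qop ψ L p.1 G p.2) = fun p : ℝ × E m =>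
      ∫ ζ : E m, kern ψ L (1 - ‖ζ‖ ^ 2) p.1 * 𝓕 G ζ * e (⟪p.2, ζ⟫ : ℝ) := by
    funext p
    unfold Qop
    simp_rw [hat_eq]
  rw [h7]
  exact h

theorem ae_ne_real (s : ℝ) : ∀ᵐ t : ℝ, t ≠ s := by
  simp [ae_iff]

/-- one slice -/
theorem slice_le {m : ℕ} {ψ : ℝ → ℝ} (hψ : Bump ψ) {L C₁ : ℝ}
    (hk : ∀ τ : ℝ, τ ≤ 1 → ∀ s : ℝ, s ≠ 0 → ‖kern ψ L τ s‖ ≤ C₁ * kk L s)
    (i : Fin (m + 1)) {f : E (m + 1) → ℂ} (hf : GoodN f) (s : ℝ) :
    (∫⁻ y : E m, ‖TR (m + 1) (ML ψ L) f (ins i s y)‖ₑ ^ 2) ^ (1 / 2 : ℝ) ≤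
      ∫⁻ t : ℝ, ENNReal.ofReal (C₁ * kk L (s - t)) *
        (∫⁻ y : E m, ‖f (ins i t y)‖ₑ ^ 2) ^ (1 / 2 : ℝ) := by
  calc (∫⁻ y : E m, ‖TR (m + 1) (ML ψ L) f (ins i s y)‖ₑ ^ 2) ^ (1 / 2 : ℝ)
      ≤ (∫⁻ y : E m, (∫⁻ t : ℝ, ‖Qop ψ L (s - t) (fun y' => f (ins i t y')) y‖ₑ) ^ 2) ^ (1 / 2 : ℝ) := by
        refine ENNReal.rpow_le_rpow (lintegral_mono fun y => ?_) (by norm_num)
        rw [repr hψ i hf s y]
        gcongr
        exact enorm_integral_le_lintegral_enorm _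
    _ ≤ ∫⁻ t : ℝ, (∫⁻ y : E m, ‖Qop ψ L (s - t) (fun y' => f (ins i t y')) y‖ₑ ^ 2) ^ (1 / 2 : ℝ) := by
        apply minkowski' (h := fun (t : ℝ) (y : E m) =>
          ‖Qop ψ L (s - t) (fun y' => f (ins i t y')) y‖ₑ)
        exact (Qs_meas hψ L i hf s).enorm
    _ ≤ _ := by
        refine lintegral_mono_ae ?_
        filter_upwards [ae_ne_real s] with t ht
        exact Q_l2 hψ (fun τ hτ => hk τ hτ _ (sub_ne_zero.2 ht.symm)) (slice_good i hf t)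

theorem Qop_smul {m : ℕ} (ψ : ℝ → ℝ) (L r : ℝ) (c : ℂ) (G : E m → ℂ) (y : E m) :
    Qop ψ L r (fun y' => c * G y') y = c * Qop ψ L r G y := by
  unfold Qop
  rw [← integral_const_mul]
  refine integral_congr_ae (Filter.Eventually.of_forall fun ζ => ?_)
  simp only
  have : ∫ y' : E m, e (-(⟪y', ζ⟫ : ℝ)) * (c * G y') = c * ∫ y' : E m, e (-(⟪y', ζ⟫ : ℝ)) * G y' := by
    rw [← integral_const_mul]
    refine integral_congr_ae (Filter.Eventually.of_forall fun y' => ?_)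
    simp only
    ring
  rw [this]
  ring

end J712

open J712

theorem Ei (m : ℕ) (ψ : ℝ → ℝ) (hψ : Bump ψ) : ∃ C : ℝ, 0 < C ∧ ∀ L : ℝ, 1 ≤ L →
    ∀ i : Fin (m + 1), ∀ f : E (m + 1) → ℂ, GoodN f →
    ∫⁻ s : ℝ, (∫⁻ y : E m, ‖TR (m + 1) (ML ψ L) f (ins i s y)‖ₑ ^ 2) ^ (1 / 2 : ℝ) ≤
      ENNReal.ofReal (C * (1 + Real.log L)) *
        ∫⁻ s : ℝ, (∫⁻ y : E m, ‖f (ins i s y)‖ₑ ^ 2) ^ (1 / 2 : ℝ) := by
  obtain ⟨C₁, hC₁, hk⟩ := ker1 ψ hψ
  obtain ⟨C₂, hC₂, hI⟩ := kk_int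
  refine ⟨C₁ * C₂, by positivity, fun L hL i f hf => ?_⟩
  have hNm : Measurable (fun t : ℝ => (∫⁻ y : E m, ‖f (ins i t y)‖ₑ ^ 2) ^ (1 / 2 : ℝ)) := by
    have h1 : Measurable (fun p : ℝ × E m => f (ins i p.1 p.2)) := by
      have := hf.1.comp (ins_meas i)
      exact this
    have h2 : Measurable (Function.uncurry fun (t : ℝ) (y : E m) => ‖f (ins i t y)‖ₑ ^ 2) :=
      h1.enorm.pow_const 2
    exact h2.lintegral_prod_right.pow_const _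
  have hKm : Measurable (fun s : ℝ => ENNReal.ofReal (C₁ * kk L s)) :=
    ((kk_meas L).const_mul _).ennreal_ofReal
  calc ∫⁻ s : ℝ, (∫⁻ y : E m, ‖TR (m + 1) (ML ψ L) f (ins i s y)‖ₑ ^ 2) ^ (1 / 2 : ℝ)
      ≤ ∫⁻ s : ℝ, ∫⁻ t : ℝ, ENNReal.ofReal (C₁ * kk L (s - t)) *
          (∫⁻ y : E m, ‖f (ins i t y)‖ₑ ^ 2) ^ (1 / 2 : ℝ) :=
        lintegral_mono fun s => slice_le hψ (hk L hL) i hf s
    _ = ∫⁻ t : ℝ, ∫⁻ s : ℝ, ENNReal.ofReal (C₁ * kk L (s - t)) *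
          (∫⁻ y : E m, ‖f (ins i t y)‖ₑ ^ 2) ^ (1 / 2 : ℝ) := by
        apply lintegral_lintegral_swap
        refine Measurable.aemeasurable ?_
        have h1 : Measurable (fun p : ℝ × ℝ => ENNReal.ofReal (C₁ * kk L (p.1 - p.2))) := by
          have ms : Measurable (fun q : ℝ × ℝ => q.1 - q.2) := by fun_prop
          have := hKm.comp ms
          exact this
        have h2 : Measurable (fun p : ℝ × ℝ => (∫⁻ y : E m, ‖f (ins i p.2 y)‖ₑ ^ 2) ^ (1 / 2 : ℝ)) := by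
          have ms : Measurable (fun q : ℝ × ℝ => q.2) := measurable_snd
          have := hNm.comp ms
          exact this
        exact h1.mul h2
    _ = ∫⁻ t : ℝ, (∫⁻ s : ℝ, ENNReal.ofReal (C₁ * kk L s)) *
          (∫⁻ y : E m, ‖f (ins i t y)‖ₑ ^ 2) ^ (1 / 2 : ℝ) := by
        refine lintegral_congr fun t => ?_
        rw [lintegral_mul_const]
        · congr 1
          exact lintegral_sub_right_eq_self (fun s => ENNReal.ofReal (C₁ * kk L s)) t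
        · have ms : Measurable (fun s : ℝ => s - t) := by fun_prop
          have := hKm.comp ms
          exact this
    _ = (∫⁻ s : ℝ, ENNReal.ofReal (C₁ * kk L s)) *
          ∫⁻ t : ℝ, (∫⁻ y : E m, ‖f (ins i t y)‖ₑ ^ 2) ^ (1 / 2 : ℝ) := by
        rw [lintegral_const_mul _ hNm]
    _ ≤ _ := by
        gcongr
        exact I_le hC₁ (hI L hL)

theorem Ai (m : ℕ) (ψ : ℝ → ℝ) (hψ : Bump ψ) : ∃ C : ℝ, 0 < C ∧ ∀ L : ℝ, 1 ≤ L →
    ∀ i : Fin (m + 1), ∀ f : E (m + 1) → ℂ, GoodN f → ∀ a : ℝ → ℂ, Measurable a →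
    (∀ s, ‖a s‖ ≤ 1) → (∃ B : ℝ, ∀ s, a s ≠ 0 → |s| ≤ B) → ∀ G : E m → ℂ, GoodN G →
    (∀ s y, f (ins i s y) = a s * G y) →
    ∃ Φ : E m → ℝ≥0∞, Measurable Φ ∧
      (∀ s y, ‖TR (m + 1) (ML ψ L) f (ins i s y)‖ₑ ≤ Φ y) ∧
      ∫⁻ y, Φ y ^ 2 ≤ ENNReal.ofReal ((C * (1 + Real.log L)) ^ 2) * ∫⁻ y, ‖G y‖ₑ ^ 2 := by
  obtain ⟨C₁, hC₁, hk⟩ := ker1 ψ hψ
  obtain ⟨C₂, hC₂, hI⟩ := kk_int
  refine ⟨C₁ * C₂, by positivity, fun L hL i f hf a _ ha1 _ G hG hfa => ?_⟩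
  have hlog : 0 ≤ Real.log L := Real.log_nonneg hL
  have hQm := (QG_meas hψ L hG).enorm
  refine ⟨fun y => ∫⁻ r : ℝ, ‖Qop ψ L r G y‖ₑ, ?_, fun s y => ?_, ?_⟩
  · have h1 : Measurable (Function.uncurry fun (y : E m) (r : ℝ) => ‖Qop ψ L r G y‖ₑ) := by
      have ms : Measurable (fun q : E m × ℝ => (q.2, q.1)) := by fun_prop
      have := hQm.comp ms
      exact this
    exact h1.lintegral_prod_right
  · rw [repr hψ i hf s y]
    calc ‖∫ t : ℝ, Qop ψ L (s - t) (fun y' => f (ins i t y')) y‖ₑ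
        ≤ ∫⁻ t : ℝ, ‖Qop ψ L (s - t) (fun y' => f (ins i t y')) y‖ₑ :=
          enorm_integral_le_lintegral_enorm _
      _ ≤ ∫⁻ t : ℝ, ‖Qop ψ L (s - t) G y‖ₑ := by
          refine lintegral_mono fun t => ?_
          have h1 : (fun y' => f (ins i t y')) = fun y' => a t * G y' := funext fun y' => hfa t y'
          rw [h1, Qop_smul, enorm_mul]
          have h2 : ‖a t‖ₑ ≤ 1 := by
            rw [← ofReal_norm, ← ENNReal.ofReal_one]
            exact ENNReal.ofReal_le_ofReal (ha1 t)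
          calc ‖a t‖ₑ * ‖Qop ψ L (s - t) G y‖ₑ ≤ 1 * ‖Qop ψ L (s - t) G y‖ₑ := by gcongr
            _ = _ := one_mul _
      _ = ∫⁻ r : ℝ, ‖Qop ψ L r G y‖ₑ :=
          lintegral_sub_left_eq_self (fun r => ‖Qop ψ L r G y‖ₑ) s
  · have h1 := minkowski (ν := (volume : Measure ℝ)) (μ := (volume : Measure (E m)))
      (h := fun (r : ℝ) (y : E m) => ‖Qop ψ L r G y‖ₑ) hQm
    refine h1.trans ?_
    have h2 : ∫⁻ r : ℝ, (∫⁻ y : E m, ‖Qop ψ L r G y‖ₑ ^ 2) ^ (1 / 2 : ℝ) ≤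
        ENNReal.ofReal (C₁ * C₂ * (1 + Real.log L)) * (∫⁻ y, ‖G y‖ₑ ^ 2) ^ (1 / 2 : ℝ) := by
      calc ∫⁻ r : ℝ, (∫⁻ y : E m, ‖Qop ψ L r G y‖ₑ ^ 2) ^ (1 / 2 : ℝ)
          ≤ ∫⁻ r : ℝ, ENNReal.ofReal (C₁ * kk L r) * (∫⁻ y, ‖G y‖ₑ ^ 2) ^ (1 / 2 : ℝ) := by
            refine lintegral_mono_ae ?_
            filter_upwards [ae_ne_real 0] with r hr
            exact Q_l2 hψ (fun τ hτ => hk L hL τ hτ r hr) hG
        _ = (∫⁻ r : ℝ, ENNReal.ofReal (C₁ * kk L r)) * (∫⁻ y, ‖G y‖ₑ ^ 2) ^ (1 / 2 : ℝ) := by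
            rw [lintegral_mul_const]
            exact ((kk_meas L).const_mul _).ennreal_ofReal
        _ ≤ _ := by
            gcongr
            exact I_le hC₁ (hI L hL)
    calc (∫⁻ r : ℝ, (∫⁻ y : E m, ‖Qop ψ L r G y‖ₑ ^ 2) ^ (1 / 2 : ℝ)) ^ 2
        ≤ (ENNReal.ofReal (C₁ * C₂ * (1 + Real.log L)) * (∫⁻ y, ‖G y‖ₑ ^ 2) ^ (1 / 2 : ℝ)) ^ 2 := by
          gcongr
      _ = _ := by
          rw [mul_pow, sq_sqrt, ENNReal.ofReal_pow (by positivity)]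

end Pool.Agent.TH278
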