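import Pool.Agent.TH508.Hedgehog

set_option autoImplicit false
open SimpleGraph

namespace Pool.Agent.TH508

/-- the only property of `K₅` and `K₃,₃` that is used: after deleting any vertex, every remaining
vertex still has two neighbours -/
def TwoNbrs {V : Type} (Δ : SimpleGraph V) : Prop :=
  ∀ v₀ v : V, v ≠ v₀ → ∃ u w : V, u ≠ w ∧ u ≠ v₀ ∧ w ≠ v₀ ∧ Δ.Adj v u ∧ Δ.Adj v w

theorem twoNbrs_K5 : TwoNbrs (⊤ : SimpleGraph (Fin 5)) := by
  unfold TwoNbrs
  decide

theorem twoNbrs_K33 : TwoNbrs (completeBipartiteGraph (Fin 3) (Fin 3)) := by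
  have key : ∀ a : Fin 3, ∃ u w : Fin 3, u ≠ w ∧ u ≠ a ∧ w ≠ a := by decide
  intro v₀ v _
  rcases v₀ with a | a <;> rcases v with c | c
  · refine ⟨Sum.inr 0, Sum.inr 1, ?_, ?_, ?_, ?_, ?_⟩ <;> simp
  · obtain ⟨u, w, h1, h2, h3⟩ := key a
    refine ⟨Sum.inl u, Sum.inl w, ?_, ?_, ?_, ?_, ?_⟩ <;> simp [h1, h2, h3]
  · obtain ⟨u, w, h1, h2, h3⟩ := key a
    refine ⟨Sum.inr u, Sum.inr w, ?_, ?_, ?_, ?_, ?_⟩ <;> simp [h1, h2, h3]
  · refine ⟨Sum.inl 0, Sum.inl 1, ?_, ?_, ?_, ?_, ?_⟩ <;> simp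

theorem twoNbrs_iso {V W : Type} {Δ : SimpleGraph V} {Γ : SimpleGraph W}
    (e : SimpleGraph.Iso Δ Γ) (h : TwoNbrs Γ) : TwoNbrs Δ := by
  intro v₀ v hv
  obtain ⟨u, w, h1, h2, h3, h4, h5⟩ := h (e v₀) (e v) (fun h' => hv (e.injective h'))
  refine ⟨e.symm u, e.symm w, ?_, ?_, ?_, ?_, ?_⟩
  · exact fun h' => h1 (e.symm.injective h')
  · rintro rfl
    exact h2 (e.apply_symm_apply u).symm
  · rintro rfl
    exact h3 (e.apply_symm_apply w).symm
  · rw [← e.map_adj_iff, e.apply_symm_apply]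
    exact h4
  · rw [← e.map_adj_iff, e.apply_symm_apply]
    exact h5

/-- The hedgehog contains no minor model (fat or not) of a graph with the property `TwoNbrs`. -/
theorem no_minor {V : Type} [Finite V] (Δ : SimpleGraph V) (hΔ : TwoNbrs Δ)
    (hV : ∃ a b : V, a ≠ b)
    (B : V → Set Hog) (P : V → V → Set Hog)
    (hB : ∀ v, IsConnected (B v))
    (hBd : ∀ v v', v ≠ v' → Disjoint (B v) (B v'))
    (hP : ∀ u w, Δ.Adj u w → P u w = P w u ∧
      ∃ g : unitInterval → Hog, Continuous g ∧ Function.Injective g ∧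
        Set.range g = P u w ∧ g 0 ∈ B u ∧ g 1 ∈ B w ∧
        P u w ∩ (⋃ v, B v) = {g 0, g 1})
    (hPd : ∀ u w u' w', Δ.Adj u w → Δ.Adj u' w' → s(u, w) ≠ s(u', w') →
      Disjoint (P u w) (P u' w')) : False := by
  classical
  -- points of a path in a branch set
  have hPB : ∀ u w v (x : Hog), Δ.Adj u w → x ∈ P u w → x ∈ B v → v = u ∨ v = w := by
    intro u w v x huw hx hxv
    obtain ⟨-, g, -, -, -, hg0, hg1, hg⟩ := hP u w huw
    have hx' : x ∈ P u w ∩ (⋃ v, B v) := ⟨hx, Set.mem_iUnion.mpr ⟨v, hxv⟩⟩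
    rw [hg] at hx'
    rcases hx' with rfl | hx'
    · left
      by_contra hne
      exact Set.disjoint_left.mp (hBd v u hne) hxv hg0
    · rw [Set.mem_singleton_iff] at hx'
      subst hx'
      right
      by_contra hne
      exact Set.disjoint_left.mp (hBd v w hne) hxv hg1
  -- the special vertex
  obtain ⟨v₀, hv₀B, hv₀P⟩ : ∃ v₀ : V, (∀ v, v ≠ v₀ → Hog.o ∉ B v) ∧
      (∀ u w, u ≠ v₀ → w ≠ v₀ → Δ.Adj u w → Hog.o ∉ P u w) := by
    by_cases h1 : ∃ a, Hog.o ∈ B a
    · obtain ⟨a, ha⟩ := h1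
      refine ⟨a, fun v hv h => Set.disjoint_left.mp (hBd v a hv) h ha, ?_⟩
      intro u w hu hw huw h
      rcases hPB u w a _ huw h ha with h' | h'
      · exact hu h'.symm
      · exact hw h'.symm
    · push Not at h1
      by_cases h2 : ∃ a b, Δ.Adj a b ∧ Hog.o ∈ P a b
      · obtain ⟨a, b, hab, ho⟩ := h2
        refine ⟨a, fun v _ => h1 v, ?_⟩
        intro u w hu hw huw h
        refine Set.disjoint_left.mp (hPd u w a b huw hab ?_) h ho
        intro he
        rcases Sym2.eq_iff.mp he with ⟨h3, -⟩ | ⟨-, h3⟩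
        · exact hu h3
        · exact hw h3
      · push Not at h2
        obtain ⟨a, -⟩ := hV
        exact ⟨a, fun v _ => h1 v, fun u w _ _ huw => h2 u w huw⟩
  -- the connected set formed by two adjacent branch sets and the path between them
  have hC : ∀ u w, Δ.Adj u w → IsPreconnected (B u ∪ P u w ∪ B w) := by
    intro u w huw
    obtain ⟨-, g, hgc, -, hgr, hg0, hg1, -⟩ := hP u w huw
    have hPc : IsPreconnected (P u w) := by
      rw [← hgr]
      exact isPreconnected_range hgc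
    have h0 : g 0 ∈ P u w := hgr ▸ Set.mem_range_self 0
    have h1 : g 1 ∈ P u w := hgr ▸ Set.mem_range_self 1
    have := IsPreconnected.union (g 0) hg0 h0 (hB u).isPreconnected hPc
    exact IsPreconnected.union (g 1) (Or.inr h1) hg1 this (hB w).isPreconnected
  have hCo : ∀ u w, u ≠ v₀ → w ≠ v₀ → Δ.Adj u w → Hog.o ∉ B u ∪ P u w ∪ B w := by
    intro u w hu hw huw h
    rcases h with (h | h) | h
    · exact hv₀B u hu h
    · exact hv₀P u w hu hw huw h
    · exact hv₀B w hw h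
  choose b hb using fun v => (hB v).nonempty
  -- the farthest base point
  obtain ⟨v', hv'⟩ : ∃ v' : V, v' ≠ v₀ := by
    obtain ⟨a, c, hac⟩ := hV
    by_cases h : a = v₀
    · exact ⟨c, fun h' => hac (h.trans h'.symm)⟩
    · exact ⟨a, h⟩
  have := Fintype.ofFinite V
  obtain ⟨v, hv, hmax⟩ := Finset.exists_max_image (Finset.univ.filter (fun v : V => v ≠ v₀))
    (fun v => (b v).r) ⟨v', by simpa using hv'⟩
  have hv : v ≠ v₀ := by simpa using hv
  have hmax : ∀ u, u ≠ v₀ → (b u).r ≤ (b v).r := fun u hu => hmax u (by simpa using hu)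
  -- the core step
  have core : ∀ u w, u ≠ w → u ≠ v₀ → w ≠ v₀ → Δ.Adj v u → Δ.Adj v w →
      (b u).r ≤ (b w).r → False := by
    intro u w huw hu hw hvu hvw hle
    have hidx : (b w).idx = (b v).idx :=
      Hog.idx_const (hC v w hvw) (hCo v w hv hw hvw) (Or.inr (hb w)) (Or.inl (Or.inl (hb v)))
    have hidx' : (b v).idx = (b u).idx :=
      Hog.idx_const (hC v u hvu) (hCo v u hv hu hvu) (Or.inl (Or.inl (hb v))) (Or.inr (hb u))
    have hmem : b w ∈ B v ∪ P v u ∪ B u :=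
      Hog.mem_between (hC v u hvu) (hCo v u hv hu hvu) (Or.inr (hb u)) (Or.inl (Or.inl (hb v)))
        (hidx.trans hidx') hle (hmax w hw)
    rcases hmem with (h | h) | h
    · exact Set.disjoint_left.mp (hBd v w hvw.ne) h (hb w)
    · rcases hPB v u w _ hvu h (hb w) with h' | h'
      · exact hvw.ne h'.symm
      · exact huw h'.symm
    · exact Set.disjoint_left.mp (hBd u w huw) h (hb w)
  obtain ⟨u, w, huw, hu, hw, hvu, hvw⟩ := hΔ v₀ v hv
  rcases le_total (b u).r (b w).r with h | h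
  · exact core u w huw hu hw hvu hvw h
  · exact core w u huw.symm hw hu hvw hvu h

/-- In a graph with nonnegative edge lengths the distance from a vertex to itself is at most `0`. -/
theorem iInf_walk_self_nonpos {W : Type} (G : SimpleGraph W) (wt : Sym2 W → ℝ)
    (hwt : ∀ e ∈ G.edgeSet, 0 < wt e ∧ wt e ≤ 1) (a b : W) (hab : a = b) :
    (⨅ p : G.Walk a b, (p.edges.map wt).sum) ≤ 0 := by
  subst hab
  have hbdd : BddBelow (Set.range (fun p : G.Walk a a => (p.edges.map wt).sum)) := by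
    refine ⟨0, ?_⟩
    rintro _ ⟨p, rfl⟩
    refine List.sum_nonneg ?_
    intro x hx
    obtain ⟨e, he, rfl⟩ := List.mem_map.mp hx
    exact (hwt e (p.edges_subset_edgeSet he)).1.le
  calc (⨅ p : G.Walk a a, (p.edges.map wt).sum)
      ≤ (((Walk.nil : G.Walk a a)).edges.map wt).sum := ciInf_le hbdd Walk.nil
    _ = 0 := by simp

/-- The hedgehog with more than continuum many spines does not embed quasi-isometrically into a
graph with at most continuum many vertices. -/
theorem no_qi {W : Type} (G : SimpleGraph W) (wt : Sym2 W → ℝ)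
    (hwt : ∀ e ∈ G.edgeSet, 0 < wt e ∧ wt e ≤ 1)
    (φ : W → ℝ × ℝ) (hφ : Function.Injective φ)
    (f : Hog → W) (M A : ℝ) (hM : 1 ≤ M) (hA : 0 ≤ A)
    (hf : ∀ x y : Hog, M⁻¹ * dist x y - A ≤ (⨅ p : G.Walk (f x) (f y), (p.edges.map wt).sum)) :
    False := by
  have hM0 : 0 < M := by linarith
  have hMA : 0 ≤ M * A := mul_nonneg hM0.le hA
  have hR : (0 : ℝ) ≤ M * A + 1 := by linarith
  have hinj : Function.Injective (fun S : HI => φ (f (Hog.pt S (M * A + 1)))) := by
    intro S T hST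
    by_contra hne
    have h1 : f (Hog.pt S (M * A + 1)) = f (Hog.pt T (M * A + 1)) := hφ hST
    have h2 := hf (Hog.pt S (M * A + 1)) (Hog.pt T (M * A + 1))
    have h3 := iInf_walk_self_nonpos G wt hwt _ _ h1
    rw [Hog.dist_pt_ne hne hR hR] at h2
    have h4 : M⁻¹ * (M * A + 1 + (M * A + 1)) ≤ A := by linarith
    have h5 : M * (M⁻¹ * (M * A + 1 + (M * A + 1))) ≤ M * A := mul_le_mul_of_nonneg_left h4 hM0.le
    rw [← mul_assoc, mul_inv_cancel₀ hM0.ne', one_mul] at h5
    linarith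
  exact Function.cantor_injective _ hinj

end Pool.Agent.TH508
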