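import Mathlib

/-!
# The hedgehog (metric fan) with more than continuum many spines

We build the metric space obtained from `Set (ℝ × ℝ)` many copies of `[0,∞)` by gluing all the
end points `0` together, and prove the facts about it used for `MP_e821ef_co`.
-/

set_option autoImplicit false

namespace Pool.Agent.TH508

/-- the index set of the spines; it has more than continuum many elements -/
abbrev HI : Type := Set (ℝ × ℝ)

/-- The hedgehog: a point is the centre (index `none`, radius `0`) or a point at positive distance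
`r` from the centre on the spine `idx`. -/
@[ext] structure Hog : Type where
  idx : Option HI
  r : ℝ
  nonneg : 0 ≤ r
  zero_iff : idx = none ↔ r = 0

namespace Hog

open Classical in
/-- the path metric of the hedgehog -/
noncomputable def d (x y : Hog) : ℝ := if x.idx = y.idx then |x.r - y.r| else x.r + y.r

theorem d_self (x : Hog) : d x x = 0 := by simp [d]

theorem d_comm (x y : Hog) : d x y = d y x := by
  unfold d
  by_cases h : x.idx = y.idx
  · rw [if_pos h, if_pos h.symm, abs_sub_comm]
  · rw [if_neg h, if_neg (fun h' => h h'.symm), add_comm]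

theorem d_triangle (x y z : Hog) : d x z ≤ d x y + d y z := by
  have hx := x.nonneg
  have hy := y.nonneg
  have hz := z.nonneg
  have h1 := le_abs_self (x.r - y.r)
  have h2 := neg_abs_le (x.r - y.r)
  have h3 := le_abs_self (y.r - z.r)
  have h4 := neg_abs_le (y.r - z.r)
  unfold d
  by_cases hxy : x.idx = y.idx
  · by_cases hyz : y.idx = z.idx
    · rw [if_pos hxy, if_pos hyz, if_pos (hxy.trans hyz)]
      exact abs_sub_le _ _ _
    · have hxz : x.idx ≠ z.idx := fun h => hyz (hxy.symm.trans h)
      rw [if_pos hxy, if_neg hyz, if_neg hxz]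
      linarith
  · by_cases hyz : y.idx = z.idx
    · have hxz : x.idx ≠ z.idx := fun h => hxy (h.trans hyz.symm)
      rw [if_neg hxy, if_pos hyz, if_neg hxz]
      linarith
    · by_cases hxz : x.idx = z.idx
      · rw [if_neg hxy, if_neg hyz, if_pos hxz, abs_le]
        constructor <;> linarith
      · rw [if_neg hxy, if_neg hyz, if_neg hxz]
        linarith

theorem eq_of_d_eq_zero {x y : Hog} (h : d x y = 0) : x = y := by
  have hx := x.nonneg
  have hy := y.nonneg
  unfold d at h
  by_cases hxy : x.idx = y.idx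
  · rw [if_pos hxy] at h
    have : x.r - y.r = 0 := abs_eq_zero.mp h
    exact Hog.ext hxy (by linarith)
  · rw [if_neg hxy] at h
    have hx0 : x.r = 0 := by linarith
    have hy0 : y.r = 0 := by linarith
    exact absurd ((x.zero_iff.mpr hx0).trans (y.zero_iff.mpr hy0).symm) hxy

noncomputable instance : MetricSpace Hog where
  dist := d
  dist_self := d_self
  dist_comm := d_comm
  dist_triangle := d_triangle
  eq_of_dist_eq_zero := eq_of_d_eq_zero

theorem dist_def (x y : Hog) : dist x y = d x y := rfl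

theorem dist_of_idx_eq {x y : Hog} (h : x.idx = y.idx) : dist x y = |x.r - y.r| := by
  rw [dist_def, d, if_pos h]

theorem dist_of_idx_ne {x y : Hog} (h : x.idx ≠ y.idx) : dist x y = x.r + y.r := by
  rw [dist_def, d, if_neg h]

/-- the radius is `1`-Lipschitz, hence continuous -/
theorem abs_r_sub_le (x y : Hog) : |x.r - y.r| ≤ dist x y := by
  have hx := x.nonneg
  have hy := y.nonneg
  by_cases h : x.idx = y.idx
  · rw [dist_of_idx_eq h]
  · rw [dist_of_idx_ne h, abs_le]
    constructor <;> linarith

theorem continuous_r : Continuous (fun x : Hog => x.r) := by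
  have : LipschitzWith 1 (fun x : Hog => x.r) := by
    refine LipschitzWith.of_dist_le_mul ?_
    intro x y
    rw [NNReal.coe_one, one_mul, Real.dist_eq]
    exact abs_r_sub_le x y
  exact this.continuous

/-- the centre -/
def o : Hog := ⟨none, 0, le_rfl, by simp⟩

theorem eq_o_of_idx {x : Hog} (h : x.idx = none) : x = o :=
  Hog.ext h (x.zero_iff.mp h)

theorem r_pos_of_ne {x : Hog} (h : x ≠ o) : 0 < x.r := by
  rcases x.nonneg.lt_or_eq with h' | h'
  · exact h'
  · exact absurd (eq_o_of_idx (x.zero_iff.mpr h'.symm)) h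

theorem idx_eq_of_dist_lt {x y : Hog} (h : dist y x < x.r) : y.idx = x.idx := by
  by_contra hne
  rw [dist_of_idx_ne hne] at h
  have := y.nonneg
  linarith

theorem isOpen_idx (p : Option HI → Prop) (hp : ¬ p none) : IsOpen {x : Hog | p x.idx} := by
  rw [Metric.isOpen_iff]
  intro x hx
  have hxo : x ≠ o := by
    rintro rfl
    exact hp hx
  refine ⟨x.r, r_pos_of_ne hxo, ?_⟩
  intro y hy
  have : y.idx = x.idx := idx_eq_of_dist_lt (Metric.mem_ball.mp hy)
  change p y.idx
  rw [this]
  exact hx

/-- a connected set missing the centre lies on one spine -/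
theorem idx_const {C : Set Hog} (hC : IsPreconnected C) (ho : o ∉ C) {x y : Hog}
    (hx : x ∈ C) (hy : y ∈ C) : x.idx = y.idx := by
  by_contra hne
  have hxo : x.idx ≠ none := fun h => ho (eq_o_of_idx h ▸ hx)
  have hU : IsOpen {z : Hog | z.idx = x.idx} :=
    isOpen_idx (fun i => i = x.idx) (fun h => hxo h.symm)
  have hV : IsOpen {z : Hog | z.idx ≠ x.idx ∧ z.idx ≠ none} :=
    isOpen_idx (fun i => i ≠ x.idx ∧ i ≠ none) (fun h => h.2 rfl)
  have hcov : C ⊆ {z : Hog | z.idx = x.idx} ∪ {z : Hog | z.idx ≠ x.idx ∧ z.idx ≠ none} := by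
    intro z hz
    by_cases h : z.idx = x.idx
    · exact Or.inl h
    · exact Or.inr ⟨h, fun h' => ho (eq_o_of_idx h' ▸ hz)⟩
  obtain ⟨z, -, hz1, hz2⟩ := hC _ _ hU hV hcov ⟨x, hx, rfl⟩
    ⟨y, hy, fun h => hne h.symm, fun h' => ho (eq_o_of_idx h' ▸ hy)⟩
  exact hz2.1 hz1

/-- a connected set missing the centre contains everything between two of its points -/
theorem mem_between {C : Set Hog} (hC : IsPreconnected C) (ho : o ∉ C) {x y z : Hog}
    (hx : x ∈ C) (hy : y ∈ C) (hz : z.idx = x.idx) (h1 : x.r ≤ z.r) (h2 : z.r ≤ y.r) : z ∈ C := by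
  obtain ⟨w, hw, hwr⟩ := hC.intermediate_value hx hy continuous_r.continuousOn ⟨h1, h2⟩
  have : w = z := Hog.ext ((idx_const hC ho hw hx).trans hz.symm) hwr
  exact this ▸ hw

/-- the point at distance `max t 0` from the centre on spine `i` -/
noncomputable def pt (i : HI) (t : ℝ) : Hog :=
  if h : 0 < t then ⟨some i, t, h.le, by simp [h.ne']⟩ else o

theorem pt_r (i : HI) {t : ℝ} (h : 0 ≤ t) : (pt i t).r = t := by
  unfold pt
  split_ifs with h'
  · rfl
  · exact le_antisymm h (not_lt.mp h')

theorem pt_idx (i : HI) {t : ℝ} (h : 0 < t) : (pt i t).idx = some i := by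
  unfold pt
  rw [dif_pos h]

theorem pt_of_nonpos (i : HI) {t : ℝ} (h : t ≤ 0) : pt i t = o := by
  unfold pt
  rw [dif_neg (not_lt.mpr h)]

theorem exists_pt (x : Hog) : ∃ (i : HI) (t : ℝ), 0 ≤ t ∧ x = pt i t := by
  rcases hx : x.idx with _ | i
  · exact ⟨∅, 0, le_rfl, by rw [pt_of_nonpos _ le_rfl]; exact eq_o_of_idx hx⟩
  · have hxo : x ≠ o := by
      rintro rfl
      exact absurd hx (by simp [o])
    have hr := r_pos_of_ne hxo
    refine ⟨i, x.r, hr.le, ?_⟩
    refine Hog.ext ?_ ?_
    · rw [pt_idx _ hr, hx]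
    · rw [pt_r _ hr.le]

theorem dist_pt_same (i : HI) {s t : ℝ} (hs : 0 ≤ s) (ht : 0 ≤ t) :
    dist (pt i s) (pt i t) = |s - t| := by
  rcases hs.lt_or_eq with hs' | hs'
  · rcases ht.lt_or_eq with ht' | ht'
    · rw [dist_of_idx_eq (by rw [pt_idx _ hs', pt_idx _ ht']), pt_r _ hs, pt_r _ ht]
    · subst ht'
      rw [dist_of_idx_ne (by rw [pt_idx _ hs', pt_of_nonpos _ le_rfl]; simp [o]), pt_r _ hs,
        pt_r _ le_rfl, sub_zero, add_zero, abs_of_nonneg hs]
  · subst hs'
    rcases ht.lt_or_eq with ht' | ht'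
    · rw [dist_of_idx_ne (by rw [pt_idx _ ht', pt_of_nonpos _ le_rfl]; simp [o]), pt_r _ le_rfl,
        pt_r _ ht, zero_sub, zero_add, abs_neg, abs_of_nonneg ht]
    · subst ht'
      simp

theorem dist_pt_ne {i j : HI} (hij : i ≠ j) {s t : ℝ} (hs : 0 ≤ s) (ht : 0 ≤ t) :
    dist (pt i s) (pt j t) = s + t := by
  rcases hs.lt_or_eq with hs' | hs'
  · rcases ht.lt_or_eq with ht' | ht'
    · rw [dist_of_idx_ne (by rw [pt_idx _ hs', pt_idx _ ht']; simpa using hij), pt_r _ hs,
        pt_r _ ht]
    · subst ht'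
      rw [dist_of_idx_ne (by rw [pt_idx _ hs', pt_of_nonpos _ le_rfl]; simp [o]), pt_r _ hs,
        pt_r _ le_rfl]
  · subst hs'
    rcases ht.lt_or_eq with ht' | ht'
    · rw [dist_of_idx_ne (by rw [pt_idx _ ht', pt_of_nonpos _ le_rfl]; simp [o]), pt_r _ le_rfl,
        pt_r _ ht]
    · subst ht'
      simp [pt_of_nonpos]

/-- the bi-infinite geodesic running in along spine `i` and out along spine `j` -/
noncomputable def line (i j : HI) (u : ℝ) : Hog := if u ≤ 0 then pt i (-u) else pt j u

theorem dist_line {i j : HI} (hij : i ≠ j) (u v : ℝ) :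
    dist (line i j u) (line i j v) = |u - v| := by
  unfold line
  by_cases hu : u ≤ 0
  · by_cases hv : v ≤ 0
    · rw [if_pos hu, if_pos hv, dist_pt_same _ (by linarith) (by linarith), abs_sub_comm]
      congr 1
      ring
    · rw [if_pos hu, if_neg hv, dist_pt_ne hij (by linarith) (by linarith),
        abs_of_nonpos (by linarith)]
      ring
  · by_cases hv : v ≤ 0
    · rw [if_neg hu, if_pos hv, dist_pt_ne hij.symm (by linarith) (by linarith),
        abs_of_nonneg (by linarith)]
      ring
    · rw [if_neg hu, if_neg hv, dist_pt_same _ (by linarith) (by linarith)]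

theorem line_neg (i j : HI) {s : ℝ} (hs : 0 ≤ s) : line i j (-s) = pt i s := by
  unfold line
  rw [if_pos (by linarith), neg_neg]

theorem line_pos (i j : HI) {t : ℝ} (ht : 0 ≤ t) : line i j t = pt j t := by
  unfold line
  rcases ht.lt_or_eq with h | h
  · rw [if_neg (by linarith)]
  · subst h
    rw [if_pos le_rfl, neg_zero, pt_of_nonpos _ le_rfl, pt_of_nonpos _ le_rfl]

/-- any two points lie on a bi-infinite geodesic -/
theorem exists_line (x y : Hog) :
    ∃ (i j : HI), i ≠ j ∧ ∃ a b : ℝ, line i j a = x ∧ line i j b = y := by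
  obtain ⟨i, s, hs, rfl⟩ := exists_pt x
  obtain ⟨j, t, ht, rfl⟩ := exists_pt y
  by_cases hij : i = j
  · subst hij
    obtain ⟨k, hk⟩ := exists_ne i
    exact ⟨i, k, hk.symm, -s, -t, line_neg _ _ hs, line_neg _ _ ht⟩
  · exact ⟨i, j, hij, -s, t, line_neg _ _ hs, line_pos _ _ ht⟩

/-- the hedgehog is a length space (even a geodesic space) -/
theorem length_space (x y : Hog) (ε : ℝ) (hε : 0 < ε) : ∃ γ : Path x y,
    eVariationOn (fun t : unitInterval => γ t) Set.univ ≤ ENNReal.ofReal (dist x y + ε) := by
  obtain ⟨i, j, hij, a, b, ha, hb⟩ := exists_line x y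
  have hdist : dist x y = |b - a| := by
    rw [← ha, ← hb, dist_line hij, abs_sub_comm]
  have hlip : LipschitzWith (nndist x y) (fun t : ℝ => line i j (a + (b - a) * t)) := by
    refine LipschitzWith.of_dist_le_mul ?_
    intro s t
    rw [dist_line hij, coe_nndist, hdist, Real.dist_eq, ← abs_mul]
    apply le_of_eq
    congr 1
    ring
  refine ⟨⟨⟨fun t : unitInterval => line i j (a + (b - a) * (t : ℝ)),
    hlip.continuous.comp continuous_subtype_val⟩, ?_, ?_⟩, ?_⟩
  · simp [ha]
  · simp [hb]
  · have h1 : eVariationOn ((fun t : ℝ => line i j (a + (b - a) * t)) ∘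
        (fun t : unitInterval => (t : ℝ))) Set.univ ≤
        (nndist x y : NNReal) * eVariationOn (fun t : unitInterval => (t : ℝ)) Set.univ :=
      (hlip.lipschitzOnWith (s := Set.univ)).comp_eVariationOn_le (Set.mapsTo_univ _ _)
    have h2 : eVariationOn (fun t : unitInterval => (t : ℝ)) Set.univ ≤ ENNReal.ofReal 1 := by
      have hmono : MonotoneOn (fun t : unitInterval => (t : ℝ)) Set.univ := by
        intro s _ t _ hst
        exact hst
      have h3 := (hmono.eVariationOn_eq (a := (0 : unitInterval)) (b := (1 : unitInterval))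
        (Set.mem_univ _) (Set.mem_univ _)).le
      have h4 : Set.univ ∩ Set.Icc (0 : unitInterval) 1 = Set.univ := by
        rw [Set.univ_inter]
        ext t
        simp [unitInterval.le_one']
      rw [h4] at h3
      simpa using h3
    calc eVariationOn (fun t : unitInterval => line i j (a + (b - a) * (t : ℝ))) Set.univ
        ≤ (nndist x y : NNReal) * eVariationOn (fun t : unitInterval => (t : ℝ)) Set.univ := h1
      _ ≤ (nndist x y : NNReal) * ENNReal.ofReal 1 := by gcongr
      _ = ENNReal.ofReal (dist x y) := by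
          rw [ENNReal.ofReal_one, mul_one, ← edist_nndist, edist_dist]
      _ ≤ ENNReal.ofReal (dist x y + ε) := ENNReal.ofReal_le_ofReal (by linarith)

end Hog

end Pool.Agent.TH508
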